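import Mathlib
import Pool.Agent.U52.PD.VanCor

set_option autoImplicit false

/-!
# Polylogarithmic gaps when a vanishing proportion of the primes is displaced at random

Replace every prime `p` by `p + ξ_p` with independent random integers `ξ_p ≥ 0`, and let `q_1 < q_2 < …` be the
numbers `p + ξ_p`. The question is whether the gaps are at most a fixed power of the logarithm. Here almost all
primes stay where they are: the prime `p` is moved with a probability which tends to `0`.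

* If `p` is moved with the probability `(log (p + 3)) ^ (-B)` only, by a uniform amount up to `p ^ s`, where `s < 1`
  is sufficiently near to `1`, then almost surely `q_(k+1) - q_k < (log q_k) ^ α` for all large `k`, for every
  `α > B + 2`: the upper bound of the question is true after a random perturbation of a proportion
  `(log X) ^ (-B)` of the primes up to `X`, for any fixed `B`.
* For an arbitrary slowly decreasing proportion `δ (p) ≥ p ^ (-κ)` the gaps are `O ((log q_k) ^ 2 / δ (q_k))`.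
* Displacements by at most a power of the logarithm, random or not, of few or of all primes, do not change the
  question: there is a polylogarithmic bound for the gaps of the displaced primes iff there is one for
  the primes.

The proof uses Hoheisel's theorem (starting library, elementary proof) and, for the probabilities of empty
windows, the file `U839/Disp` of this team.
-/

open MeasureTheory ProbabilityTheory Filter Topology

namespace Pool.Agent.Results.MP_711652_nt.DisplacedFewPrimes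

/-- The set of the numbers `p + ξ_p`, `p` prime. -/
def Displaced {Ω : Type*} (ξ : ℕ → Ω → ℕ) (ω : Ω) : Set ℕ := {q | ∃ p : ℕ, p.Prime ∧ p + ξ p ω = q}

/-- The `k`-th element of `Q` (counted from `0`). -/
noncomputable def el (Q : Set ℕ) (k : ℕ) : ℕ := Nat.nth (· ∈ Q) k

/-- `G Q X` is the largest gap `q_(k+1) - q_k` between consecutive elements of `Q` with
`q_(k+1) ≤ X` (and `0` if there is none). -/
noncomputable def G (Q : Set ℕ) (X : ℕ) : ℕ :=
  sSup {g | ∃ k, Nat.nth (· ∈ Q) (k + 1) ≤ X ∧ g = Nat.nth (· ∈ Q) (k + 1) - Nat.nth (· ∈ Q) k}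

/-- The displacements are random variables and independent. -/
structure Indep {Ω : Type*} [MeasurableSpace Ω] (μ : Measure Ω) (ξ : ℕ → Ω → ℕ) : Prop where
  meas : ∀ p, Measurable (ξ p)
  indep : iIndepFun ξ μ

/-- Independent displacements; the prime `p` stays with the probability `1 - δ p`, and each of the
displacements `1, …, D p` has the probability `δ p / D p`. -/
structure Few {Ω : Type*} [MeasurableSpace Ω] (μ : Measure Ω) (ξ : ℕ → Ω → ℕ) (δ : ℕ → ℝ) (D : ℕ → ℕ) :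
    Prop extends Indep μ ξ where
  law : ∀ p : ℕ, p.Prime → ∀ j : ℕ, μ.real (ξ p ⁻¹' {j}) =
    if j = 0 then 1 - δ p else if j ≤ D p then δ p / (D p : ℝ) else 0

/-- Independent displacements; each of the values `1, …, D p` has a probability of at least `δ p / D p`. -/
structure Dense {Ω : Type*} [MeasurableSpace Ω] (μ : Measure Ω) (ξ : ℕ → Ω → ℕ) (δ : ℕ → ℝ) (D : ℕ → ℕ) :
    Prop extends Indep μ ξ where
  point : ∀ p : ℕ, p.Prime → ∀ j : ℕ, 1 ≤ j → j ≤ D p → δ p / (D p : ℝ) ≤ μ.real (ξ p ⁻¹' {j})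

theorem result.{u} :
    -- (1) a proportion `(log (p + 3)) ^ (-B)` of the primes is moved by up to `p ^ s`
    (∃ θ : ℝ, θ < 1 ∧ ∀ s : ℝ, θ ≤ s → s < 1 → ∀ B : ℝ, 0 ≤ B →
      ∀ (Ω : Type u) [MeasurableSpace Ω] (μ : Measure Ω) [IsProbabilityMeasure μ] (ξ : ℕ → Ω → ℕ),
      Few μ ξ (fun p => (Real.log ((p : ℝ) + 3)) ^ (-B)) (fun p => ⌊(p : ℝ) ^ s⌋₊ + 1) →
      ∀ᵐ ω ∂μ, ∀ α : ℝ, B + 2 < α → ∀ᶠ k : ℕ in atTop,
        (el (Displaced ξ ω) (k + 1) : ℝ) - el (Displaced ξ ω) k <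
          (Real.log (el (Displaced ξ ω) k)) ^ α) ∧
    -- (2) general laws
    (∃ θ : ℝ, θ < 1 ∧ ∃ K : ℝ, 0 < K ∧ ∀ κ : ℝ, κ < θ → ∀ A : ℝ, 1 ≤ A →
      ∀ D : ℕ → ℕ, Monotone D → (∀ n, 1 ≤ D n) → (∀ n, (D (2 * n) : ℝ) ≤ A * D n) →
      (∀ᶠ n : ℕ in atTop, (n : ℝ) ^ θ ≤ D n) → Tendsto (fun n : ℕ => (D n : ℝ) / n) atTop (𝓝 0) →
      ∀ δ : ℕ → ℝ, Antitone δ → (∀ n, 0 < δ n ∧ δ n ≤ 1) → (∀ᶠ n : ℕ in atTop, (n : ℝ) ^ (-κ) ≤ δ n) →
      ∀ (Ω : Type u) [MeasurableSpace Ω] (μ : Measure Ω) [IsProbabilityMeasure μ] (ξ : ℕ → Ω → ℕ),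
      Dense μ ξ δ D → ∀ᵐ ω ∂μ, ∀ᶠ k : ℕ in atTop,
        (el (Displaced ξ ω) (k + 1) : ℝ) - el (Displaced ξ ω) k ≤
          K * A * (Real.log (el (Displaced ξ ω) k)) ^ 2 / δ (el (Displaced ξ ω) k)) ∧
    -- (3) polylogarithmic displacements do not change the question
    (∀ (ξ : ℕ → ℕ) (B : ℝ), 1 ≤ B → (∀ᶠ n : ℕ in atTop, (ξ n : ℝ) ≤ (Real.log n) ^ B) →
      ((∃ α : ℝ, ∀ᶠ X : ℕ in atTop, (G {q | ∃ p : ℕ, p.Prime ∧ p + ξ p = q} X : ℝ) ≤
          (Real.log X) ^ α) ↔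
        ∃ α : ℝ, ∀ᶠ X : ℕ in atTop, (G {p | p.Prime} X : ℝ) ≤ (Real.log X) ^ α)) := by
  refine ⟨?_, ?_, ?_⟩
  · obtain ⟨θ, h0, h1, h⟩ := Pool.Agent.U52.PD.van_log.{u}
    exact ⟨θ, h1, fun s hs hs1 B hB Ω _ μ _ ξ hξ => h s hs hs1 B hB Ω μ ξ hξ.meas hξ.indep hξ.law⟩
  · obtain ⟨θ, h0, h1, K, hK, h⟩ := Pool.Agent.U52.PD.van_gaps.{u}
    exact ⟨θ, h1, K, hK, fun κ hκ A hA D hmono hD1 hdbl hlow hD0 δ hanti hδ hδlow Ω _ μ _ ξ hξ =>
      h κ hκ A hA D hmono hD1 hdbl hlow hD0 δ hanti hδ hδlow Ω μ ξ hξ.meas hξ.indep hξ.point⟩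
  · exact fun ξ B hB h => Pool.Agent.U52.PD.polylog_iff ξ B hB h

end Pool.Agent.Results.MP_711652_nt.DisplacedFewPrimes
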