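import Pool.Agent.U828.KD.RecOrd

/-!
# Record prime gaps around an integer and around several multiples of several arbitrary functions of different orders,
at the same time

Let `f_1, …, f_r` be ARBITRARY functions on the natural numbers of different orders `c_j > 0`: for one `d ≥ 2`, `d > c_j`,
the differences of order `d` of `f_j` have, for large `n`, a constant sign and are `n ^ (c_j - d + o(1))` in absolute value.
There is no formula and no smoothness; examples are `n ^ c` with `c` not an integer, `n ^ j log n` with `j ≥ 1`, these plus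
arbitrary real polynomials of degree below `d`, and irregular functions: the differences of order `d` may be any numbers
of one sign of this size. Let `f_j(n) ≥ n ^ ρ` for large `n` and some `ρ > 0`. Let `α_1, …, α_s` be positive real numbers
which are linearly independent over the rational numbers in the sense `|h_1 α_1 + ⋯ + h_s α_s| ≥ c / H ^ A` for all
integral vectors `h ≠ 0` with `|h_i| ≤ H` (one number `α_1 > 0` has this property, with `A = 0`; so have algebraic numbers
linearly independent over the rational numbers).

**Theorem.** For every `ε > 0` there is a `κ > 0` such that for all large `N` at least `N ^ (1 - ε)` integers `n` in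
`(N, 2 N]` are such that NO prime is at distance at most

`κ log N (log₂ N)² log₄ N / (log₃ N)²`

from any of the `1 + r s` numbers `n`, `α_i f_j(n)`. So there are gaps of this size (which is the size
of the largest gaps known to the starting files) around the values of arbitrary functions, at several places at the same
time, on the side of the negated form of the question.

The starting results treat one or several explicit or smoothly varying functions: `SeveralSmoothFunctions` (smoothly
varying functions whose indices are not integers `≥ 0`, at primes), `IrrationalPolynomials`, and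
`MP_ff81b6_nt.SeveralGeneralisedPolynomials`. The result `MP_ff81b6_nt.HigherConvexFunctions` (helper828) has functions of
one and the same size on one scale.

Proof: `Pool.Agent.U828.KD.joint_exp`, a derivative test for the exponential sums with the phases
`γ_1 f_1(n) + ⋯ + γ_r f_r(n) + θ n`, `γ` any real vector whose nonzero coordinates are between `N ^ (-τ)` and `N ^ τ` (the
function of the largest order with `γ_j ≠ 0` dominates the differences of order `d`), and the joint covering criterion
`Pool.Agent.Y961.JR.crit_scaled1J` of the starting files, applied to all the `n` which are not good.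
-/

set_option autoImplicit false

namespace Pool.Agent.Results.MP_711652_nt.FunctionsOfDifferentOrders

open Finset Filter

/-- `log x (log₂ x)² log₄ x / (log₃ x)²`, where `log₂ x = log log x` and so on. -/
noncomputable def R (x : ℝ) : ℝ :=
  Real.log x * (Real.log (Real.log x)) ^ 2 * Real.log (Real.log (Real.log (Real.log x))) /
    (Real.log (Real.log (Real.log x))) ^ 2

/-- No prime is at distance at most `κ R(N)` from `y`. -/
def PrimeFree (κ N y : ℝ) : Prop := ∀ q : ℕ, q.Prime → κ * R N < |(q : ℝ) - y|

/-- For large `n` the differences of order `d` of `f` have a constant sign and are `n ^ (c - d + o(1))` in absolute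
value. -/
def Order (d : ℕ) (c : ℝ) (f : ℕ → ℝ) : Prop :=
  ∀ ε : ℝ, 0 < ε → ∃ N₀ : ℕ,
    (∀ n : ℕ, N₀ ≤ n → (n : ℝ) ^ (c - d - ε) ≤ (fwdDiff 1)^[d] f n ∧
      (fwdDiff 1)^[d] f n ≤ (n : ℝ) ^ (c - d + ε)) ∨
    (∀ n : ℕ, N₀ ≤ n → (n : ℝ) ^ (c - d - ε) ≤ -(fwdDiff 1)^[d] f n ∧
      -(fwdDiff 1)^[d] f n ≤ (n : ℝ) ^ (c - d + ε))

/-- The numbers `α i` are linearly independent over the rational numbers, with a bound `c / H ^ A` for the linear forms
with coefficients at most `H`. -/
def Independent {s : ℕ} (α : Fin s → ℝ) : Prop :=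
  ∃ (c : ℝ) (A : ℕ), 0 < c ∧ ∀ (h : Fin s → ℤ) (H : ℕ), h ≠ 0 → (∀ i, |h i| ≤ H) →
    c ≤ |∑ i, (h i : ℝ) * α i| * (H : ℝ) ^ A

open Classical in
/-- **Theorem.** Let `f_1, …, f_r` (`r ≥ 1`) be arbitrary functions of different orders `0 < c_j < d`, `d ≥ 2`, with
`f_j(n) ≥ n ^ ρ` for large `n`, `ρ > 0`, let `α_1, …, α_s` (`s ≥ 1`) be positive and independent, and let `ε > 0`. There is a
`κ > 0` such that for all large `N` at least `N ^ (1 - ε)` of the integers `n` in `(N, 2 N]` are such that no prime is at
distance at most `κ R(N)` from `n` or from any of the numbers `α_i f_j(n)`. -/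
theorem result {r s : ℕ} (hr : 1 ≤ r) (hs : 1 ≤ s) (d : ℕ) (hd : 2 ≤ d) (c : Fin r → ℝ)
    (hc : Function.Injective c) (hc0 : ∀ j, 0 < c j) (hcd : ∀ j, c j < d) (f : Fin r → ℕ → ℝ)
    (hf : ∀ j, Order d (c j) (f j)) (ρ : ℝ) (hρ : 0 < ρ) (hlow : ∀ j, ∀ᶠ n : ℕ in atTop, (n : ℝ) ^ ρ ≤ f j n)
    (α : Fin s → ℝ) (hα : ∀ i, 0 < α i) (hind : Independent α) (ε : ℝ) (hε : 0 < ε) :
    ∃ κ : ℝ, 0 < κ ∧ ∀ᶠ N : ℕ in atTop, (N : ℝ) ^ (1 - ε) ≤
      (((Ioc N (2 * N)).filter fun n : ℕ =>
        PrimeFree κ N n ∧ ∀ i j, PrimeFree κ N (α i * f j n)).card : ℝ) := by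
  obtain ⟨c₁, A, hc₁, hA⟩ := hind
  obtain ⟨κ, hκ, h⟩ := Pool.Agent.U828.KD.rec_orders hr hs d hd c hc hc0 hcd f hf ρ hρ hlow α hα c₁ A hc₁ hA ε hε
  refine ⟨κ, hκ, ?_⟩
  filter_upwards [h] with N hN
  refine hN _ (filter_subset _ _) fun n hn h1 h2 => ?_
  rw [mem_filter]
  exact ⟨hn, h1, h2⟩

end Pool.Agent.Results.MP_711652_nt.FunctionsOfDifferentOrders
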