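import Pool.Agent.U28.SF.SF21
import Pool.Agent.Q278.KT.Fin

set_option autoImplicit false

/-!
# Vectors of gaps between primes in EVERY interval `(u, u + N]` with `N ≥ u ^ (0.615 - δ)`, in all its short intervals

In EVERY interval `(u, u + N]`, `u ^ (0.615 - δ) ≤ N ≤ u`, a positive proportion of all the vectors `(g_1, …, g_l)` of
positive integers `≤ K log N` occur as the vector of `l` consecutive gaps between primes with the expected frequency
`N / (log N) ^ (l + 1)`, and they are spread regularly at all scales: for a positive proportion of the integers `y` of the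
interval ALL the intervals `(y, y + H]`, `C (log N) ^ (l + 1) ≤ H ≤ N`, contain at least a constant times
`H / (log N) ^ (l + 1)` of the positions; the same for every subset `U` of positive relative density of the set of the
positions, and even for the elements of `U` which are the first of `m` terms of an arithmetic progression in `U` with
difference at most a power of `log N`. For `l = 0` these are the primes: around a positive proportion of the points of every
interval the primes have the right order at all scales from `C log N` on.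

Proof: the number of the primes in the interval comes from the counting theorem of the starting library for separated short
intervals with few primes (`Pool.Agent.Q278.KT`, `Pool.Agent.U766.OP.all_long`, helper766), the counting of the gap vectors
is `Pool.Agent.U766.OP.Gap` (helper766); the energy of dense sets of prime tuples at their mean spacing and the covering
argument are `Pool.Agent.U28.SF`; Szemerédi's theorem for sifted sets is from the starting library.
-/

namespace Pool.Agent.Results.MP_711652_nt.GapsInEveryWindow

open Finset Filter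

/-- the primes, numbered from `pr 0 = 2` -/
noncomputable def pr (n : ℕ) : ℕ := Nat.nth Nat.Prime n

open Classical in
/-- the primes `q` of `(u, u + N]` such that the next `l` gaps between primes are `g 0, …, g (l - 1)` and the last of these
`l + 1` primes is at most `u + N` -/
noncomputable def Pos {l : ℕ} (g : Fin l → ℕ) (u N : ℕ) : Finset ℕ :=
  (Ioc u (u + N)).filter (fun q => ∃ n, pr n = q ∧ pr (n + l) ≤ u + N ∧
    ∀ i : Fin l, pr (n + i + 1) = pr (n + i) + g i)

/-- `q` is the first of `m` terms of an arithmetic progression in `U` with difference between `1` and `D` -/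
def FirstTerm (m : ℕ) (D : ℝ) (U : Finset ℕ) (q : ℕ) : Prop :=
  ∃ d : ℕ, 1 ≤ d ∧ (d : ℝ) ≤ D ∧ ∀ j < m, q + j * d ∈ U

open Classical in
/-- At least `κ N` of the integers `u ≤ y ≤ u + N` are such that for ALL natural numbers `H ≤ N` with
`(log N) ^ r ≤ κ H` the interval `(y, y + H]` contains at least `κ H / (log N) ^ r` integers with the property `P`. -/
def Everywhere (κ : ℝ) (r u N : ℕ) (P : ℕ → Prop) : Prop :=
  κ * N ≤ (((Icc u (u + N)).filter (fun y => ∀ H : ℕ, Real.log N ^ r ≤ κ * H → H ≤ N →
    κ * (H / Real.log N ^ r) ≤ (((Ioc y (y + H)).filter P).card : ℝ))).card : ℝ)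

/-- The vector `g` has at least `κ N / (log N) ^ (l + 1)` positions in the interval, and every set `U` of positions of
relative density at least `ρ` satisfies `Everywhere κ (l + 1) u N (FirstTerm m ((log N) ^ B) U)`. -/
def Good {l : ℕ} (κ ρ : ℝ) (m B u N : ℕ) (g : Fin l → ℕ) : Prop :=
  κ * (N / Real.log N ^ (l + 1)) ≤ (Pos g u N).card ∧
    ∀ U ⊆ Pos g u N, ρ * (Pos g u N).card ≤ U.card → Everywhere κ (l + 1) u N (FirstTerm m (Real.log N ^ B) U)

open Classical in
/-- There is `δ > 0` such that for every `l` there are `K, η > 0` such that for all `m` and `ρ > 0` there are `κ > 0`, `B` and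
`u₀` such that for all `u ≥ u₀` and ALL `N` with `u ^ (0.615 - δ) ≤ N ≤ u` at least `η (log N) ^ l` of the vectors `g` with
`1 ≤ g i ≤ K log N` satisfy `Good κ ρ m B u N g`. -/
theorem result :
    ∃ δ : ℝ, 0 < δ ∧ ∀ l : ℕ, ∃ K η : ℝ, 0 < K ∧ 0 < η ∧ ∀ (m : ℕ) (ρ : ℝ), 0 < ρ →
      ∃ κ : ℝ, 0 < κ ∧ ∃ B u₀ : ℕ, ∀ u N : ℕ, u₀ ≤ u → (u : ℝ) ^ (0.615 - δ) ≤ N → N ≤ u →
        η * Real.log N ^ l ≤
          (((Fintype.piFinset (fun _ : Fin l => Icc 1 ⌊K * Real.log N⌋₊)).filter (Good κ ρ m B u N)).card : ℝ) := by
  obtain ⟨δ, hδ, hδ1, h⟩ := Pool.Agent.U28.SF.strings_long Pool.Agent.Q278.KT.mainp_043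
    (by norm_num) (by norm_num) (by norm_num) (by norm_num) (by norm_num)
  refine ⟨δ, hδ, fun l => ?_⟩
  obtain ⟨K, η, hK, hη, h⟩ := h l
  refine ⟨K, η, hK, hη, fun m ρ hρ => ?_⟩
  obtain ⟨κ, hκ, B, h⟩ := h m ρ hρ
  obtain ⟨u₀, h⟩ := eventually_atTop.1 h
  refine ⟨κ, hκ, B, u₀, fun u N hu hN1 hN2 => ?_⟩
  exact h u hu N (by
    refine le_trans (le_of_eq ?_) hN1
    congr 1
    norm_num) hN2

end Pool.Agent.Results.MP_711652_nt.GapsInEveryWindow
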