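import Pool.Agent.U607.GapMean

/-!
# Gaps between the integers with at most three prime factors: a polylogarithmic bound in mean square

Selberg's bound `∑ (p' - p) ^ 2 ≪ X (log X) ^ 3` for the gaps between consecutive primes up to `X` is known under the
Riemann hypothesis only.  For the integers with at most three prime factors, all of them at least `X ^ ζ`, `ζ < 1 / 8`
fixed, and for every larger set of integers, the corresponding bound is unconditional: the sum of the squares of the gaps
up to `X` is `O(X (log X) ^ 8)`, and at most `C X (log X) ^ 7 / H ^ 2` gaps are longer than `H`, for every `H`.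

Method: the weighted linear sieve and the large sieve for windows (`Pool.Agent.K3h31.WL.few_windows`: all but
`O(X (log X) ^ 7 / H)` windows of length `H ≤ √X` contain such integers; `Pool.Agent.K3h89.SI.every`: every window of
length `√X` does), and the passage from empty windows to gaps.
-/

set_option autoImplicit false

namespace Pool.Agent.Results.MP_711652_nt.MeanSquareGaps

open Finset

/-- `n > 1` has at most three prime factors (counted with multiplicity), all of them at least `w`. -/
def AtMostThree (w : ℝ) (n : ℕ) : Prop :=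
  1 < n ∧ n.primeFactorsList.length ≤ 3 ∧ ∀ q : ℕ, q.Prime → q ∣ n → w ≤ q

open Classical in
/-- The pairs `(a, b)` of consecutive elements `a < b` of the set `A` with `1 ≤ a` and `b ≤ X`. -/
noncomputable def gaps (A : Set ℕ) (X : ℕ) : Finset (ℕ × ℕ) :=
  ((Icc 1 X) ×ˢ (Icc 1 X)).filter
    (fun z => z.1 ∈ A ∧ z.2 ∈ A ∧ z.1 < z.2 ∧ ∀ m ∈ A, ¬ (z.1 < m ∧ m < z.2))

open Classical in
/-- **Tail and second moment of the gaps.**  Let `ζ < 1 / 8`.  There is a constant `C` such that for all `X ≥ 3` and
every set `A` which contains all the integers `n ≤ X` with at most three prime factors, all at least `X ^ ζ`: for every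
`H ≥ 1` at most `C X (log X) ^ 7 / H ^ 2` of the gaps between consecutive elements of `A` up to `X` are longer than `H`,
and the sum of the squares of these gaps is at most `C X (log X) ^ 8`. -/
theorem result (ζ : ℝ) (hζ : ζ < 1 / 8) :
    ∃ C : ℝ, 0 < C ∧ ∀ X : ℕ, 3 ≤ X → ∀ A : Set ℕ,
      (∀ n : ℕ, n ≤ X → AtMostThree ((X : ℝ) ^ ζ) n → n ∈ A) →
      (∀ H : ℝ, 1 ≤ H → (((gaps A X).filter (fun z => H < (z.2 : ℝ) - z.1)).card : ℝ) ≤
        C * (X * Real.log X ^ 7 / H ^ 2)) ∧
      ∑ z ∈ gaps A X, ((z.2 : ℝ) - z.1) ^ 2 ≤ C * (X * Real.log X ^ 8) := by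
  classical
  obtain ⟨C, hC, h⟩ := Pool.Agent.U607.GM.main ζ hζ
  refine ⟨C, hC, fun X hX A hA => ?_⟩
  have key : Pool.Agent.U607.GM.gaps (A ∪ {n | X < n}) X = gaps A X := by
    ext z
    rw [Pool.Agent.U607.GM.mem_gaps]
    unfold gaps
    rw [mem_filter, mem_product, mem_Icc, mem_Icc]
    constructor
    · rintro ⟨⟨a1, a2, a3, a4⟩, b1, b2, b3, b4⟩
      refine ⟨⟨⟨a1, a2⟩, ⟨a3, a4⟩⟩, ?_, ?_, b3, fun m hm => b4 m (Or.inl hm)⟩
      · rcases b1 with h1 | h1
        · exact h1
        · exact absurd h1 (by simp only [Set.mem_setOf_eq]; omega)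
      · rcases b2 with h1 | h1
        · exact h1
        · exact absurd h1 (by simp only [Set.mem_setOf_eq]; omega)
    · rintro ⟨⟨⟨a1, a2⟩, ⟨a3, a4⟩⟩, b1, b2, b3, b4⟩
      refine ⟨⟨a1, a2, a3, a4⟩, Or.inl b1, Or.inl b2, b3, ?_⟩
      rintro m (hm | hm)
      · exact b4 m hm
      · simp only [Set.mem_setOf_eq] at hm
        omega
  have h1 := h X hX (A ∪ {n | X < n}) (by
    intro n hn
    by_cases h2 : n ≤ X
    · exact Or.inl (hA n h2 hn)
    · exact Or.inr (by simp only [Set.mem_setOf_eq]; omega))
  rw [key] at h1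
  exact h1

end Pool.Agent.Results.MP_711652_nt.MeanSquareGaps
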